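import Mathlib
import Pool.Agent.Helper9.FA.ZDefs

/-!
Module ROUND of T8: integral and real angle assignments.
-/

namespace Pool.Agent.Helper9.FA


/-- `N`-th of the angles -/
noncomputable def toR (p : ℕ) (c : Cor ℕ) : Cor ℝ :=
  ⟨Real.pi * c.n / p, Real.pi * c.uL / p, Real.pi * c.uR / p, Real.pi * c.uB / p,
    Real.pi * c.uT / p⟩

/-- integral angle assignments with positive weight give real ones -/
theorem AngN_toR {α : Type} {p : ℕ} (hp : 1 ≤ p) {P : List (Item α)} {d : List ℕ}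
    {cs : List (Cor ℕ)} (h : AngN p P d cs) (hc : ∀ c ∈ cs, c.uB ≤ c.n ∧ c.uT ≤ c.n ∧
      c.uL + c.n ≤ p ∧ c.uR + c.n ≤ p ∧ 2 * c.n ≤ p) :
    Ang P (d.map fun x : ℕ => Real.pi * x / p) (cs.map (toR p)) := by
  have hp0 : (0 : ℝ) < p := by exact_mod_cast hp
  have hpi := Real.pi_pos
  have hfp : Real.pi * (p : ℝ) / p = Real.pi := by field_simp
  have mono : ∀ a b : ℕ, a ≤ b → Real.pi * (a : ℝ) / p ≤ Real.pi * (b : ℝ) / p := by
    intro a b hab
    have : (a : ℝ) ≤ b := by exact_mod_cast hab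
    gcongr
  have add : ∀ a b : ℕ, Real.pi * ((a + b : ℕ) : ℝ) / p =
      Real.pi * (a : ℝ) / p + Real.pi * (b : ℝ) / p := by
    intro a b
    push_cast
    ring
  induction h with
  | nil =>
    have : (List.map (fun x : ℕ => Real.pi * x / p) [0, 0]) = [0, 0] := by simp
    rw [this]
    exact Ang.nil
  | @cup P l r a b cs h ih =>
    have h1 := ih hc
    rw [List.map_append, List.map_cons, List.map_cons, List.map_cons, hfp] at h1
    rw [List.map_append, List.map_cons, add, ← List.length_map (f := fun x : ℕ => Real.pi * x / p)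
      (as := l)]
    exact Ang.cup h1
  | @cap P l r x i cs h hi ih =>
    have h1 := ih hc
    rw [List.map_append, List.map_cons] at h1
    rw [List.map_append, List.map_cons, List.map_cons, List.map_cons,
      ← List.length_map (f := fun x : ℕ => Real.pi * x / p) (as := l), Nat.cast_zero, mul_zero,
      zero_div]
    refine Ang.cap h1 (mono _ _ (by omega)) (mono _ _ (by omega)) ?_
    rw [← add, show x + i + (p - i) = x + p by omega, add, hfp]
  | @box P l r x y t e c cs h h1 h2 h3 ih =>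
    have h4 := ih fun c hcs => hc c (List.mem_cons_of_mem _ hcs)
    obtain ⟨b1, b2, b3, b4, b5⟩ := hc c (List.mem_cons_self)
    have h5 : Real.pi - (toR p c).uT = Real.pi * (t : ℝ) / p := by
      have := add t c.uT
      rw [h2, hfp] at this
      simp only [toR]
      linarith
    rw [List.map_append, List.map_cons, List.map_cons, List.map_cons, ← h5] at h4
    rw [List.map_append, List.map_cons, List.map_cons, List.map_cons, add, add, List.map_cons,
      ← List.length_map (f := fun x : ℕ => Real.pi * x / p) (as := l)]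
    refine Ang.box (c := toR p c) h4 ⟨?_, ?_, ?_, ?_, ?_, mono _ _ b1, mono _ _ b2, ?_, ?_, ?_⟩
    · simp only [toR]; positivity
    · simp only [toR]; positivity
    · simp only [toR]; positivity
    · simp only [toR]; positivity
    · have := add t c.uT
      rw [h2, hfp, ← h1, add, add] at this
      exact this.symm
    · have := mono _ _ b3
      rw [add, hfp] at this
      exact this
    · have := mono _ _ b4
      rw [add, hfp] at this
      exact this
    · have := mono _ _ b5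
      rw [hfp] at this
      refine le_trans (le_of_eq ?_) this
      simp only [toR]
      push_cast
      ring

/-- rounding of partial sums -/
private noncomputable def rd (q : ℝ) : ℝ → List ℝ → List ℕ
  | _, [] => []
  | s, x :: xs => (⌊q * (s + x)⌋₊ - ⌊q * s⌋₊) :: rd q (s + x) xs

private theorem rd_append (q : ℝ) (s : ℝ) (l m : List ℝ) :
    rd q s (l ++ m) = rd q s l ++ rd q (s + l.sum) m := by
  induction l generalizing s with
  | nil => simp [rd]
  | cons x xs ih =>
    rw [List.cons_append, rd, ih, rd, List.cons_append, List.sum_cons, add_assoc]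

private theorem rd_length (q : ℝ) (s : ℝ) (l : List ℝ) : (rd q s l).length = l.length := by
  induction l generalizing s with
  | nil => rfl
  | cons x xs ih => rw [rd, List.length_cons, List.length_cons, ih]

private theorem rd_shift {p : ℕ} {q : ℝ} (hq : 0 ≤ q) (hqp : q * Real.pi = p) (s : ℝ) (hs : 0 ≤ s)
    (l : List ℝ) (hl : ∀ x ∈ l, 0 ≤ x) : rd q (s + Real.pi) l = rd q s l := by
  induction l generalizing s with
  | nil => rfl
  | cons x xs ih =>
    have hx := hl x List.mem_cons_self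
    have e1 : q * (s + x + Real.pi) = q * (s + x) + p := by rw [mul_add q (s + x), hqp]
    have e2 : q * (s + Real.pi) = q * s + p := by rw [mul_add q s, hqp]
    rw [rd, rd, show s + Real.pi + x = s + x + Real.pi by ring, ih (s + x) (by positivity)
      fun y hy => hl y (List.mem_cons_of_mem _ hy), e1, e2,
      Nat.floor_add_natCast (by positivity), Nat.floor_add_natCast (by positivity),
      Nat.add_sub_add_right]

private theorem Ang_nonneg {α : Type} {P : List (Item α)} {d : List ℝ} {cs : List (Cor ℝ)}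
    (h : Ang P d cs) : ∀ x ∈ d, 0 ≤ x := by
  induction h with
  | nil => simp
  | cup h ih =>
    intro z hz
    simp only [List.mem_append, List.mem_cons] at hz ih
    rcases hz with hz | hz | hz
    · exact ih z (Or.inl hz)
    · rw [hz]
      exact add_nonneg (ih _ (by simp)) (ih _ (by simp))
    · exact ih z (by simp [hz])
  | cap h ha hb hab ih =>
    intro z hz
    simp only [List.mem_append, List.mem_cons] at hz ih
    have hx := ih _ (Or.inr (Or.inl rfl))
    rcases hz with hz | hz | hz | hz | hz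
    · exact ih z (Or.inl hz)
    · rw [hz]; exact hx.trans ha
    · rw [hz]
    · rw [hz]; exact hx.trans hb
    · exact ih z (by simp [hz])
  | box h hc ih =>
    intro z hz
    simp only [List.mem_append, List.mem_cons] at hz ih
    have hx := ih _ (Or.inr (Or.inl rfl))
    rcases hz with hz | hz | hz | hz | hz
    · exact ih z (Or.inl hz)
    · rw [hz]; exact add_nonneg hx hc.L0
    · rw [hz]; exact hc.B0
    · rw [hz]; exact add_nonneg (ih _ (by simp)) hc.R0
    · exact ih z (by simp [hz])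

/-- what is needed at a vertex for rounding -/
private def Slack (p : ℕ) (c : Cor ℝ) : Prop :=
  2 * Real.pi ≤ p * (Real.pi - 2 * c.n)

private theorem exists_slack (cs : List (Cor ℝ)) (hs : ∀ c ∈ cs, c.Strict) :
    ∃ p0 : ℕ, ∀ p : ℕ, p0 ≤ p → ∀ c ∈ cs, Slack p c := by
  have key : ∀ δ : ℝ, 0 < δ → ∃ p0 : ℕ, ∀ p : ℕ, p0 ≤ p → 2 * Real.pi ≤ p * δ := by
    intro δ hδ
    obtain ⟨p0, hp0⟩ := exists_nat_ge (2 * Real.pi / δ)
    refine ⟨p0, fun p hp => ?_⟩
    have h1 : (p0 : ℝ) ≤ p := by exact_mod_cast hp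
    rw [← div_le_iff₀ hδ]
    exact hp0.trans h1
  induction cs with
  | nil => exact ⟨0, fun _ _ c hc => by simp at hc⟩
  | cons c cs ih =>
    obtain ⟨p1, h1⟩ := ih fun d hd => hs d (List.mem_cons_of_mem _ hd)
    have s5 := (hs c List.mem_cons_self).n2
    obtain ⟨a1, k1⟩ := key (Real.pi - 2 * c.n) (by linarith)
    refine ⟨p1 + a1, fun p hp d hd => ?_⟩
    rcases List.mem_cons.1 hd with hd | hd
    · subst hd
      exact k1 p (by omega)
    · exact h1 p (by omega) d hd

private def Near (p : ℕ) (c : Cor ℝ) (d : Cor ℕ) : Prop :=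
  (d.uB ≤ d.n ∧ d.uT ≤ d.n ∧ d.uL + d.n ≤ p ∧ d.uR + d.n ≤ p ∧ 2 * d.n ≤ p) ∧
        |c.n - (toR p d).n| ≤ 4 / p ∧ |c.uL - (toR p d).uL| ≤ 4 / p ∧
        |c.uR - (toR p d).uR| ≤ 4 / p ∧ |c.uB - (toR p d).uB| ≤ 4 / p ∧
        |c.uT - (toR p d).uT| ≤ 4 / p

private theorem near_coord {p : ℕ} {q : ℝ} (hp : 1 ≤ p) (hqp : q * Real.pi = p) {u : ℝ} {u' : ℕ}
    (h : |q * u - u'| ≤ 1) : |u - Real.pi * u' / p| ≤ 4 / p := by
  have hp0 : (0 : ℝ) < p := by exact_mod_cast hp
  have hpi := Real.pi_pos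
  have h1 : u - Real.pi * u' / p = (Real.pi / p) * (q * u - u') := by
    field_simp
    rw [← hqp]
    ring
  rw [h1, abs_mul, abs_of_pos (by positivity)]
  have h2 : Real.pi / p ≤ 4 / p := by
    have := Real.pi_lt_four
    gcongr
  calc Real.pi / p * |q * u - u'| ≤ (4 / p) * 1 := by gcongr
    _ = 4 / p := mul_one _

private theorem floor_diff {x y : ℝ} (hx : 0 ≤ x) (hy : x ≤ y) :
    |(y - x) - ((⌊y⌋₊ - ⌊x⌋₊ : ℕ) : ℝ)| ≤ 1 := by
  have hxy := Nat.floor_le_floor hy
  rw [Nat.cast_sub hxy, abs_le]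
  have h1 := Nat.floor_le hx
  have h2 := Nat.lt_floor_add_one x
  have h3 := Nat.floor_le (hx.trans hy)
  have h4 := Nat.lt_floor_add_one y
  constructor <;> linarith

/-- the angle `n` is rounded within the interval of the possible values -/
private def rdn (p uL uR uB uT f : ℕ) : ℕ := max (max uB uT) (min (min (p - uL) (p - uR)) f)

private theorem near_box {p : ℕ} {q : ℝ} (hp : 1 ≤ p) (hq : 0 ≤ q) (hqp : q * Real.pi = p)
    {c : Cor ℝ} (hc : c.Ok) (hs : Slack p c) {d : Cor ℕ} (hsum : d.uL + d.uR + d.uB + d.uT = p)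
    (hn : d.n = rdn p d.uL d.uR d.uB d.uT ⌊q * c.n⌋₊)
    (hL : |q * c.uL - d.uL| ≤ 1) (hR : |q * c.uR - d.uR| ≤ 1) (hB : |q * c.uB - d.uB| ≤ 1)
    (hT : |q * c.uT - d.uT| ≤ 1) : Near p c d := by
  have hpi := Real.pi_pos
  have hn0 : 0 ≤ c.n := hc.B0.trans hc.Bn
  have f1 := Nat.floor_le (mul_nonneg hq hn0)
  have f2 := Nat.lt_floor_add_one (q * c.n)
  set f := ⌊q * c.n⌋₊ with hf
  have g1 : d.uB ≤ d.n := by rw [hn]; unfold rdn; omega
  have g2 : d.uT ≤ d.n := by rw [hn]; unfold rdn; omega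
  have g3 : d.uL + d.n ≤ p := by rw [hn]; unfold rdn; omega
  have g4 : d.uR + d.n ≤ p := by rw [hn]; unfold rdn; omega
  have g5 : d.n = f ∨ (f < d.n ∧ (d.n = d.uB ∨ d.n = d.uT)) ∨
      (d.n < f ∧ (d.uL + d.n = p ∨ d.uR + d.n = p)) := by
    rw [hn]; unfold rdn; omega
  rw [abs_le] at hL hR hB hT
  have bB : q * c.uB ≤ q * c.n := mul_le_mul_of_nonneg_left hc.Bn hq
  have bT : q * c.uT ≤ q * c.n := mul_le_mul_of_nonneg_left hc.Tn hq
  have bL : q * c.uL + q * c.n ≤ p := by
    rw [← mul_add, ← hqp]; exact mul_le_mul_of_nonneg_left hc.Ln hq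
  have bR : q * c.uR + q * c.n ≤ p := by
    rw [← mul_add, ← hqp]; exact mul_le_mul_of_nonneg_left hc.Rn hq
  have hN : |q * c.n - d.n| ≤ 1 := by
    rw [abs_le]
    rcases g5 with h | ⟨h, h'⟩ | ⟨h, h'⟩
    · rw [h]
      constructor <;> linarith
    · have h1 : (f : ℝ) + 1 ≤ d.n := by exact_mod_cast h
      rcases h' with h' | h'
      · have h2 : (d.n : ℝ) = d.uB := by exact_mod_cast h'
        constructor <;> linarith
      · have h2 : (d.n : ℝ) = d.uT := by exact_mod_cast h'
        constructor <;> linarith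
    · have h1 : (d.n : ℝ) + 1 ≤ f := by exact_mod_cast h
      rcases h' with h' | h'
      · have h2 : (d.uL : ℝ) + d.n = p := by exact_mod_cast h'
        constructor <;> linarith
      · have h2 : (d.uR : ℝ) + d.n = p := by exact_mod_cast h'
        constructor <;> linarith
  have t5 : 2 ≤ q * (Real.pi - 2 * c.n) := by
    have h : 2 * Real.pi ≤ p * (Real.pi - 2 * c.n) := hs
    rw [← hqp, mul_assoc, mul_comm Real.pi, ← mul_assoc] at h
    exact le_of_mul_le_mul_right h hpi
  rw [mul_sub, hqp] at t5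
  refine ⟨⟨g1, g2, g3, g4, ?_⟩, near_coord hp hqp hN, near_coord hp hqp (abs_le.2 hL),
    near_coord hp hqp (abs_le.2 hR), near_coord hp hqp (abs_le.2 hB),
    near_coord hp hqp (abs_le.2 hT)⟩
  rw [abs_le] at hN
  have : 2 * (d.n : ℝ) ≤ p := by linarith
  exact_mod_cast this

private theorem round_aux {α : Type} {p : ℕ} {q : ℝ} (hp : 1 ≤ p) (hq : 0 ≤ q)
    (hqp : q * Real.pi = p) {P : List (Item α)} {d : List ℝ} {cs : List (Cor ℝ)}
    (h : Ang P d cs) (hs : ∀ c ∈ cs, Slack p c) :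
    ∃ ds : List (Cor ℕ), AngN p P (rd q 0 d) ds ∧ List.Forall₂ (Near p) cs ds := by
  have hpi := Real.pi_pos
  induction h with
  | nil =>
    refine ⟨[], ?_, List.Forall₂.nil⟩
    have : rd q 0 [0, 0] = [0, 0] := by simp [rd]
    rw [this]
    exact AngN.nil
  | @cup P l r a b cs h ih =>
    obtain ⟨ds, h1, h2⟩ := ih hs
    refine ⟨ds, ?_, h2⟩
    have hn := Ang_nonneg h
    have hl : 0 ≤ l.sum := List.sum_nonneg fun x hx => hn x (by simp [hx])
    have ha : 0 ≤ a := hn a (by simp)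
    have hb : 0 ≤ b := hn b (by simp)
    rw [rd_append, rd, rd, rd, zero_add] at h1
    rw [rd_append, rd, zero_add]
    have e1 : q * (l.sum + a + Real.pi) = q * (l.sum + a) + p := by rw [mul_add q (l.sum + a), hqp]
    have e2 : l.sum + a + Real.pi + b = l.sum + (a + b) + Real.pi := by ring
    have e3 : q * (l.sum + (a + b) + Real.pi) = q * (l.sum + (a + b)) + p := by
      rw [mul_add q (l.sum + (a + b)), hqp]
    have n1 : 0 ≤ q * (l.sum + a) := by positivity
    have n2 : 0 ≤ q * (l.sum + (a + b)) := by positivity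
    rw [e2, e3, e1, Nat.floor_add_natCast n1, Nat.floor_add_natCast n2, Nat.add_sub_add_right,
      Nat.add_sub_cancel_left, rd_shift hq hqp _ (by positivity) _
      (fun x hx => hn x (by simp [hx]))] at h1
    have m1 : ⌊q * l.sum⌋₊ ≤ ⌊q * (l.sum + a)⌋₊ := Nat.floor_le_floor (mul_le_mul_of_nonneg_left (by linarith) hq)
    have m2 : ⌊q * (l.sum + a)⌋₊ ≤ ⌊q * (l.sum + (a + b))⌋₊ :=
      Nat.floor_le_floor (mul_le_mul_of_nonneg_left (by linarith) hq)
    have h3 := AngN.cup h1
    rw [rd_length, show ⌊q * (l.sum + a)⌋₊ - ⌊q * l.sum⌋₊ +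
      (⌊q * (l.sum + (a + b))⌋₊ - ⌊q * (l.sum + a)⌋₊) =
      ⌊q * (l.sum + (a + b))⌋₊ - ⌊q * l.sum⌋₊ by omega] at h3
    exact h3
  | @cap P l r x a b cs h ha hb hab ih =>
    obtain ⟨ds, h1, h2⟩ := ih hs
    refine ⟨ds, ?_, h2⟩
    have hn := Ang_nonneg h
    have hl : 0 ≤ l.sum := List.sum_nonneg fun x hx => hn x (by simp [hx])
    have hx : 0 ≤ x := hn x (by simp)
    have ha' : a ≤ Real.pi := by linarith
    rw [rd_append, rd, zero_add] at h1
    rw [rd_append, rd, rd, rd, zero_add, add_zero,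
      show l.sum + a + b = l.sum + x + Real.pi by linarith,
      rd_shift hq hqp _ (by positivity) _ (fun x hx => hn x (by simp [hx]))]
    have e1 : q * (l.sum + x + Real.pi) = q * (l.sum + x) + p := by rw [mul_add q (l.sum + x), hqp]
    have e2 : q * (l.sum + Real.pi) = q * l.sum + p := by rw [mul_add q l.sum, hqp]
    have n1 : 0 ≤ q * (l.sum + x) := by positivity
    have n2 : 0 ≤ q * l.sum := by positivity
    have m1 : ⌊q * l.sum⌋₊ ≤ ⌊q * (l.sum + x)⌋₊ := Nat.floor_le_floor (mul_le_mul_of_nonneg_left (by linarith) hq)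
    have m2 : ⌊q * (l.sum + x)⌋₊ ≤ ⌊q * (l.sum + a)⌋₊ := Nat.floor_le_floor (by gcongr)
    have m3 : ⌊q * (l.sum + a)⌋₊ ≤ ⌊q * l.sum⌋₊ + p := by
      rw [← Nat.floor_add_natCast n2, ← e2]
      exact Nat.floor_le_floor (by gcongr)
    rw [e1, Nat.floor_add_natCast n1, Nat.sub_self]
    have h3 := AngN.cap (i := ⌊q * (l.sum + a)⌋₊ - ⌊q * (l.sum + x)⌋₊) h1 (by omega)
    rw [rd_length, show ⌊q * (l.sum + x)⌋₊ - ⌊q * l.sum⌋₊ +
      (⌊q * (l.sum + a)⌋₊ - ⌊q * (l.sum + x)⌋₊) =
      ⌊q * (l.sum + a)⌋₊ - ⌊q * l.sum⌋₊ by omega,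
      show p - (⌊q * (l.sum + a)⌋₊ - ⌊q * (l.sum + x)⌋₊) =
      ⌊q * (l.sum + x)⌋₊ + p - ⌊q * (l.sum + a)⌋₊ by omega] at h3
    exact h3
  | @box P l r x y e c cs h hc ih =>
    obtain ⟨ds, h1, h2⟩ := ih fun c hcs => hs c (List.mem_cons_of_mem _ hcs)
    have hn := Ang_nonneg h
    have hl : 0 ≤ l.sum := List.sum_nonneg fun x hx => hn x (by simp [hx])
    have hx : 0 ≤ x := hn x (by simp)
    have hy : 0 ≤ y := hn y (by simp)
    obtain ⟨c1, c2, c3, c4, c5, c6, c7, c8, c9, c10⟩ := id hc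
    rw [rd_append, rd, rd, rd, zero_add] at h1
    rw [rd_append, rd, rd, rd, zero_add]
    set A0 := ⌊q * l.sum⌋₊ with hA0
    set A1 := ⌊q * (l.sum + x)⌋₊ with hA1
    have eT : l.sum + x + (Real.pi - c.uT) = l.sum + (x + c.uL) + c.uB + c.uR := by linarith
    have eE : l.sum + (x + c.uL) + c.uB + (y + c.uR) = l.sum + x + (Real.pi - c.uT) + y := by
      linarith
    rw [eE]
    set A2 := ⌊q * (l.sum + (x + c.uL))⌋₊ with hA2
    set A3 := ⌊q * (l.sum + (x + c.uL) + c.uB)⌋₊ with hA3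
    set A4 := ⌊q * (l.sum + x + (Real.pi - c.uT))⌋₊ with hA4
    set A5 := ⌊q * (l.sum + x + (Real.pi - c.uT) + y)⌋₊ with hA5
    have g01 : q * l.sum ≤ q * (l.sum + x) := mul_le_mul_of_nonneg_left (by linarith) hq
    have g12 : q * (l.sum + x) ≤ q * (l.sum + (x + c.uL)) := mul_le_mul_of_nonneg_left (by linarith) hq
    have g23 : q * (l.sum + (x + c.uL)) ≤ q * (l.sum + (x + c.uL) + c.uB) := mul_le_mul_of_nonneg_left (by linarith) hq
    have g34 : q * (l.sum + (x + c.uL) + c.uB) ≤ q * (l.sum + x + (Real.pi - c.uT)) := by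
      exact mul_le_mul_of_nonneg_left (by linarith) hq
    have g45 : q * (l.sum + x + (Real.pi - c.uT)) ≤ q * (l.sum + x + (Real.pi - c.uT) + y) := by
      exact mul_le_mul_of_nonneg_left (by linarith) hq
    have g14 : q * (l.sum + x + (Real.pi - c.uT)) ≤ q * (l.sum + x) + p := by
      rw [← hqp, ← mul_add]
      exact mul_le_mul_of_nonneg_left (by linarith) hq
    have n1 : 0 ≤ q * (l.sum + x) := by positivity
    have m01 : A0 ≤ A1 := Nat.floor_le_floor g01
    have m12 : A1 ≤ A2 := Nat.floor_le_floor g12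
    have m23 : A2 ≤ A3 := Nat.floor_le_floor g23
    have m34 : A3 ≤ A4 := Nat.floor_le_floor g34
    have m45 : A4 ≤ A5 := Nat.floor_le_floor g45
    have m14 : A4 ≤ A1 + p := by
      rw [hA1, ← Nat.floor_add_natCast n1]
      exact Nat.floor_le_floor g14
    let c' : Cor ℕ := ⟨rdn p (A2 - A1) (A4 - A3) (A3 - A2) (p - (A4 - A1)) ⌊q * c.n⌋₊,
      A2 - A1, A4 - A3, A3 - A2, p - (A4 - A1)⟩
    have hnp : c'.n ≤ p := by
      simp only [c']
      unfold rdn
      omega
    have h3 := AngN.box (e := e) (c := c') h1 (by simp only [c']; omega) (by simp only [c']; omega)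
      hnp
    refine ⟨c' :: ds, ?_, List.Forall₂.cons ?_ h2⟩
    · simp only [c'] at h3
      rw [rd_length, show A1 - A0 + (A2 - A1) = A2 - A0 by omega,
        show A5 - A4 + (A4 - A3) = A5 - A3 by omega] at h3
      exact h3
    · have d1 := floor_diff n1 g12
      have d2 := floor_diff (n1.trans g12) g23
      have d3 := floor_diff ((n1.trans g12).trans g23) g34
      have d4 := floor_diff n1 (g12.trans (g23.trans g34))
      refine near_box hp hq hqp hc (hs c List.mem_cons_self) (by simp only [c']; omega) rfl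
        ?_ ?_ ?_ ?_
      · refine le_trans (le_of_eq ?_) d1
        congr 1
        simp only [c', hA1, hA2]
        ring
      · refine le_trans (le_of_eq ?_) d3
        congr 1
        simp only [c', hA3, hA4]
        rw [eT]
        ring
      · refine le_trans (le_of_eq ?_) d2
        congr 1
        simp only [c', hA3, hA2]
        ring
      · refine le_trans (le_of_eq ?_) d4
        rw [← abs_neg]
        congr 1
        simp only [c']
        rw [Nat.cast_sub (by omega : A4 - A1 ≤ p), ← hqp, hA4, hA1]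
        ring

/-- rounding; the last condition is on the distance -/
theorem Ang_round {α : Type} {P : List (Item α)} {cs : List (Cor ℝ)} (h : Ang P [0, 0] cs)
    (hs : ∀ c ∈ cs, c.Strict) : ∃ p0 : ℕ, ∀ p : ℕ, p0 ≤ p → ∃ ds : List (Cor ℕ),
      AngN p P [0, 0] ds ∧
      List.Forall₂ (fun (c : Cor ℝ) (d : Cor ℕ) =>
        (d.uB ≤ d.n ∧ d.uT ≤ d.n ∧ d.uL + d.n ≤ p ∧ d.uR + d.n ≤ p ∧ 2 * d.n ≤ p) ∧
        |c.n - (toR p d).n| ≤ 4 / p ∧ |c.uL - (toR p d).uL| ≤ 4 / p ∧
        |c.uR - (toR p d).uR| ≤ 4 / p ∧ |c.uB - (toR p d).uB| ≤ 4 / p ∧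
        |c.uT - (toR p d).uT| ≤ 4 / p) cs ds := by
  obtain ⟨p0, hp0⟩ := exists_slack cs hs
  refine ⟨p0 + 1, fun p hp => ?_⟩
  have hpi := Real.pi_pos
  obtain ⟨ds, h1, h2⟩ := round_aux (p := p) (q := p / Real.pi) (by omega) (by positivity)
    (by field_simp) h (hp0 p (by omega))
  refine ⟨ds, ?_, h2⟩
  have : rd (p / Real.pi) 0 [0, 0] = [0, 0] := by simp [rd]
  rw [this] at h1
  exact h1

end Pool.Agent.Helper9.FA
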